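import Mathlib
import Pool.Agent.Run7.h334.KSR.Dense

/-!
MP_b62148_ag, Q1 and Q2: rational points of varieties with a group of automorphisms of maximal
dynamical rank.
-/

set_option autoImplicit false

open Filter Topology

namespace Pool.Agent.Results.MP_b62148_ag.MaximalRankDensity

open Pool.Agent.Q8.KS Run7.h334.KSR

/-- Let `V` be a projective variety (for instance a rationally connected one) of dimension
`m = dimPred + 1 ≥ 2` over a number field `K` with absolute Galois group `G`, and let `ℤ^(m-1)` act
on `V` by automorphisms `f v` over `K` with first dynamical degree `d₁(f v) > 1` for all `v ≠ 0`.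
There is a proper closed invariant subset `Z` of `V` such that for every finite extension `L` of
`K` (the fixed field of a subgroup `H` of finite index) `V(L)` is Zariski dense in `V` or all but
finitely many points of `V(L)` lie in `Z`; and `V(L)` is dense for some `L`, that is, `V` is
potentially dense. Every orbit of the group outside of `Z` is finite or Zariski dense. -/
theorem result {G : Type} [Group G] (V : ProjVariety G) (T : Subvarieties V)
    (hm : 0 < V.dimPred) (Φ : LatticeAction V V.dimPred) (hΦ : ∀ v, PreservesSub T (Φ.f v))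
    (A : V.Pic) (hA : V.IsAmple A)
    (hpos : ∀ v : Fin V.dimPred → ℤ, v ≠ 0 → ∃ d, 1 < d ∧ IsDynamicalDegree (Φ.f v) A d) :
    ∃ Z : Set V.Pt, IsClosed Z ∧ Z ≠ Set.univ ∧ (∀ v x, (Φ.f v).pt x ∈ Z ↔ x ∈ Z) ∧
      (∀ x, x ∉ Z → (Set.range fun v => (Φ.f v).pt x).Finite ∨
        Dense (Set.range fun v => (Φ.f v).pt x)) ∧
      (∀ H : Subgroup G, H.FiniteIndex → (ratPts V H \ Z).Finite ∨ Dense (ratPts V H)) ∧
      ∃ H : Subgroup G, H.FiniteIndex ∧ Dense (ratPts V H) := by
  obtain ⟨Z, h1, h2, h3, h4, -, h5, h6⟩ := density hm T Φ hΦ hA hpos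
  exact ⟨Z, h1, h2, h3, h4, h5, h6⟩

end Pool.Agent.Results.MP_b62148_ag.MaximalRankDensity
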