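import Pool.Agent.Y407.C.BadReal
import Pool.Agent.Y232.CS.Bad
import Pool.Agent.Run7.h443.UQ.Main

/-!
# Unirationality and dense rational points for 100% of the everywhere locally soluble smooth
quartic double covers of `ℙⁿ`, `n ≥ 2`

For a quartic form `F` in `x_0, …, x_n` with integral coefficients let `X_F` be the double cover
`w ^ 2 = F(x_0, …, x_n)` of `ℙⁿ`, a hypersurface of degree 4 in `ℙ(1, …, 1, 2)`. If the branch
divisor `F = 0` is smooth then `X_F` is a smooth Fano variety of dimension `n`; for `n = 2` it is a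
del Pezzo surface of degree 2, for `n = 3` a quartic double solid. Among the `F` with coefficients
bounded by `H` with smooth branch divisor for which `X_F` has points over the real numbers and over
all the `p`-adic fields, a proportion tending to `1` as `H → ∞` has the following property: for all
fields `L` of characteristic zero, for example all number fields, `X_F` is integral and unirational
over `L` and its `L`-points are Zariski dense.
-/

set_option autoImplicit false

namespace Pool.Agent.Results.MP_b62148_ag.QuarticDoubleCoversUnirational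

open Filter Topology

/-- The forms of degree `D` in `x_0, …, x_n` whose coefficients are integers of absolute value
at most `H`. -/
def Forms (n D H : ℕ) : Set (MvPolynomial (Fin (n + 1)) ℤ) :=
  {F | F.IsHomogeneous D ∧ ∀ a, |F.coeff a| ≤ (H : ℤ)}

/-- The hypersurface `F = 0` in `ℙⁿ` is smooth: at every zero over a field of characteristic zero
some partial derivative does not vanish. -/
def Smooth {n : ℕ} (F : MvPolynomial (Fin (n + 1)) ℤ) : Prop :=
  ∀ (K : Type) [Field K] [CharZero K] (x : Fin (n + 1) → K), x ≠ 0 →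
    MvPolynomial.aeval x F = 0 → ∃ i, MvPolynomial.aeval x (MvPolynomial.pderiv i F) ≠ 0

/-- `(x, w)` represents a point over the field `K` of the double cover `w ^ 2 = F(x)` of `ℙⁿ`. -/
def IsPoint {n : ℕ} {K : Type} [Field K] (F : MvPolynomial (Fin (n + 1)) ℤ)
    (x : Fin (n + 1) → K) (w : K) : Prop :=
  x ≠ 0 ∧ w ^ 2 = MvPolynomial.aeval x F

/-- The double cover has points over the real numbers and over all the `p`-adic fields. -/
def LocallySoluble {n : ℕ} (F : MvPolynomial (Fin (n + 1)) ℤ) : Prop :=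
  (∃ (x : Fin (n + 1) → ℝ) (w : ℝ), IsPoint F x w) ∧
    ∀ (p : ℕ) [Fact p.Prime], ∃ (x : Fin (n + 1) → ℚ_[p]) (w : ℚ_[p]), IsPoint F x w

/-- The equation `w ^ 2 = F(x)` of `X_F`, as a polynomial over the field `L` in the variable `w`
(the variable with the index `0`) and the variables `x_0, …, x_n` (the variables with the indices
`1, …, n + 1`). -/
noncomputable def equation {n : ℕ} (L : Type) [Field L] (F : MvPolynomial (Fin (n + 1)) ℤ) :
    MvPolynomial (Fin (n + 2)) L :=
  MvPolynomial.X 0 ^ 2 - MvPolynomial.rename Fin.succ (MvPolynomial.map (Int.castRingHom L) F)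

/-- `X_F` is unirational over `L`: there are polynomials `W = P 0` and `P 1, …, P (n + 1)` in some
variables `t_1, …, t_N` over `L` whose polynomial relations over `L` are exactly the multiples of
the equation of `X_F`. In other words `t ↦ (W(t), P 1 (t), …, P (n + 1) (t))` is a dominant rational
map from the affine space to the cone over `X_F`, thus it gives a dominant rational map to `X_F`. -/
def IsUnirational {n : ℕ} (L : Type) [Field L] (F : MvPolynomial (Fin (n + 1)) ℤ) : Prop :=
  ∃ (N : ℕ) (P : Fin (n + 2) → MvPolynomial (Fin N) L), ∀ G : MvPolynomial (Fin (n + 2)) L,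
    MvPolynomial.aeval P G = 0 ↔ equation L F ∣ G

/-- The `L`-points of `X_F` are Zariski dense in `X_F`: every polynomial `G(w, x)` over `L` which
is not divisible by the equation of `X_F` is nonzero at some point of `X_F` over `L`. -/
def IsDense {n : ℕ} (L : Type) [Field L] (F : MvPolynomial (Fin (n + 1)) ℤ) : Prop :=
  ∀ G : MvPolynomial (Fin (n + 2)) L, ¬ equation L F ∣ G →
    ∃ (x : Fin (n + 1) → L) (w : L), IsPoint F x w ∧
      MvPolynomial.aeval (Fin.cons w x : Fin (n + 2) → L) G ≠ 0

theorem smooth_iff {n : ℕ} (f : Fin 1 → MvPolynomial (Fin (n + 1)) ℤ) :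
    Pool.Agent.Y697.C13.SmoothS f ↔ Smooth (f 0) := by
  constructor
  · intro h K _ _ x hx hF
    obtain ⟨i, hi⟩ := h K x (fun _ => 1) hx (by
      intro h0
      exact one_ne_zero (congrFun h0 0)) (by
      intro j
      rw [Subsingleton.elim j 0]
      exact hF)
    refine ⟨i, ?_⟩
    rwa [Fin.sum_univ_one, one_mul] at hi
  · intro h K _ _ x l hx hl hF
    obtain ⟨i, hi⟩ := h K x hx (hF 0)
    refine ⟨i, ?_⟩
    rw [Fin.sum_univ_one]
    refine mul_ne_zero ?_ hi
    intro h0
    apply hl
    funext j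
    rw [Subsingleton.elim j 0]
    exact h0

theorem ncard_iff {n D H : ℕ} {e : Fin 1 → ℕ} (he : ∀ j, e j + 2 = D)
    (P : (Fin 1 → MvPolynomial (Fin (n + 1)) ℤ) → Prop)
    (P' : MvPolynomial (Fin (n + 1)) ℤ → Prop) (hP : ∀ f, P f ↔ P' (f 0)) :
    ({f : Fin 1 → MvPolynomial (Fin (n + 1)) ℤ | (∀ j, (f j).IsHomogeneous (e j + 2) ∧
      ∀ a, |(f j).coeff a| ≤ (H : ℤ)) ∧ P f} : Set _).ncard =
    ({F | F ∈ Forms n D H ∧ P' F} : Set _).ncard := by
  have hinj : Function.Injective (fun F : MvPolynomial (Fin (n + 1)) ℤ => fun _ : Fin 1 => F) :=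
    fun F F' h => congrFun h 0
  rw [← Set.ncard_image_of_injective _ hinj]
  congr 1
  ext f
  simp only [Set.mem_ofPred_eq, Set.mem_image, Forms]
  constructor
  · rintro ⟨h1, h2⟩
    refine ⟨f 0, ⟨⟨?_, (h1 0).2⟩, (hP f).mp h2⟩, ?_⟩
    · have := (h1 0).1
      rwa [he 0] at this
    · funext j
      rw [Subsingleton.elim j 0]
  · rintro ⟨F, ⟨⟨h1, h2⟩, h3⟩, rfl⟩
    refine ⟨fun j => ⟨?_, h2⟩, (hP _).mpr h3⟩
    rw [he j]
    exact h1

theorem equation_ne {n : ℕ} (L : Type) [Field L] (F : MvPolynomial (Fin (n + 1)) ℤ) :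
    equation L F ≠ 0 := by
  intro h0
  have h1 := congrArg (MvPolynomial.aeval (Fin.cons Polynomial.X (fun _ => 0) :
    Fin (n + 2) → Polynomial L)) h0
  unfold equation at h1
  rw [map_sub, map_pow, MvPolynomial.aeval_X, Fin.cons_zero, MvPolynomial.aeval_rename,
    map_zero] at h1
  have h2 : (MvPolynomial.aeval ((Fin.cons Polynomial.X (fun _ => 0) :
      Fin (n + 2) → Polynomial L) ∘ Fin.succ)) (MvPolynomial.map (Int.castRingHom L) F) =
      Polynomial.C (MvPolynomial.aeval (fun _ => (0 : L))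
        (MvPolynomial.map (Int.castRingHom L) F)) := by
    rw [← Pool.Agent.Run7.h443.UQ.aeval_C]
    congr 2
    funext i
    simp
  rw [h2] at h1
  exact (Polynomial.monic_X_pow_sub_C _ two_ne_zero).ne_zero h1

theorem irr_of_uni {n : ℕ} {L : Type} [Field L] {F : MvPolynomial (Fin (n + 1)) ℤ}
    (h : IsUnirational L F) : Irreducible (equation L F) := by
  obtain ⟨N, P, hP⟩ := h
  apply Prime.irreducible
  refine ⟨equation_ne L F, ?_, ?_⟩
  · intro hu
    have h1 := (hP 1).mpr (hu.dvd)
    rw [map_one] at h1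
    exact one_ne_zero h1
  · intro a b hab
    have h1 := (hP (a * b)).mpr hab
    rw [map_mul, mul_eq_zero] at h1
    exact h1.imp (hP a).mp (hP b).mp

/-- Let `n ≥ 2`. 100% of the everywhere locally soluble double covers `w ^ 2 = F(x)` of `ℙⁿ`
branched along a smooth quartic hypersurface `F = 0` are integral and unirational and have Zariski
dense points over all fields of characteristic zero. -/
theorem result (n : ℕ) (hn : 2 ≤ n) :
    Tendsto (fun H : ℕ =>
      (({F | F ∈ Forms n 4 H ∧ Smooth F ∧ LocallySoluble F ∧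
        ∀ (L : Type) [Field L] [CharZero L],
          Irreducible (equation L F) ∧ IsUnirational L F ∧ IsDense L F} : Set _).ncard : ℝ) /
      (({F | F ∈ Forms n 4 H ∧ Smooth F ∧ LocallySoluble F} : Set _).ncard : ℝ))
      atTop (𝓝 1) := by
  classical
  have hfin : ∀ H, (Forms n 4 H).Finite := fun H => Pool.Agent.Y214.HB.fm_finite n 4 H
  have he : ∀ j, (fun _ : Fin 1 => 4 - 2) j + 2 = 4 := fun j => rfl
  have hels : ∀ f : Fin 1 → MvPolynomial (Fin (n + 1)) ℤ,
      Pool.Agent.R465.CV.ElsW 2 f ↔ LocallySoluble (f 0) := fun f => Iff.rfl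
  obtain ⟨N, -, hlim⟩ := Pool.Agent.Run7.h443.HC.ratio_prop (Fin (n + 1)) (m := 2) (k := 2)
    (e := fun _ : Fin 1 => 4 - 2) (by rw [Fintype.card_fin]; omega) le_rfl (by norm_num)
    (fun j => by norm_num) (by rw [Fintype.card_fin]; omega)
    (fun _ _ f => Pool.Agent.R465.CV.ElsW 2 f → Pool.Agent.Run7.h443.UQ.HasGood (f 0))
    (fun _ _ ε hε => Pool.Agent.Run7.h443.UQ.good_bad hn
      (Pool.Agent.Y232.CS.bad_int (Fin (n + 1)) _) (Pool.Agent.Y407.C4.bad_real (Fin (n + 1)) _)
      ε hε)
  refine tendsto_of_tendsto_of_tendsto_of_le_of_le' hlim tendsto_const_nhds ?_ ?_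
  · filter_upwards with H
    rw [ncard_iff he (fun f => Pool.Agent.Y697.C13.SmoothS f ∧ Pool.Agent.R465.CV.ElsW 2 f)
        (fun F => Smooth F ∧ LocallySoluble F) (fun f => and_congr (smooth_iff f) Iff.rfl),
      ncard_iff he (fun f => Pool.Agent.Y697.C13.SmoothS f ∧ Pool.Agent.R465.CV.ElsW 2 f ∧
          (Pool.Agent.R465.CV.ElsW 2 f → Pool.Agent.Run7.h443.UQ.HasGood (f 0)))
        (fun F => Smooth F ∧ LocallySoluble F ∧
          (LocallySoluble F → Pool.Agent.Run7.h443.UQ.HasGood F))
        (fun f => and_congr (smooth_iff f) (and_congr Iff.rfl Iff.rfl))]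
    apply div_le_div_of_nonneg_right _ (Nat.cast_nonneg _)
    have hsub : {F | F ∈ Forms n 4 H ∧ Smooth F ∧ LocallySoluble F ∧
          (LocallySoluble F → Pool.Agent.Run7.h443.UQ.HasGood F)} ⊆
        {F | F ∈ Forms n 4 H ∧ Smooth F ∧ LocallySoluble F ∧
        ∀ (L : Type) [Field L] [CharZero L],
          Irreducible (equation L F) ∧ IsUnirational L F ∧ IsDense L F} := by
      rintro F ⟨hF, hs, hl, hg⟩
      refine ⟨hF, hs, hl, fun L _ _ => ?_⟩
      obtain ⟨h1, h2⟩ := Pool.Agent.Run7.h443.UQ.uni_of_good hn hF.1 (hg hl) L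
      have hu : IsUnirational L F := h1
      refine ⟨irr_of_uni hu, hu, fun G hG => ?_⟩
      obtain ⟨x, w, e1, e2, e3⟩ := h2 G hG
      exact ⟨x, w, ⟨e1, e2⟩, e3⟩
    exact (Nat.cast_le (α := ℝ)).mpr
      (Set.ncard_le_ncard hsub ((hfin H).subset (fun F hF => hF.1)))
  · filter_upwards with H
    apply div_le_one_of_le₀ _ (Nat.cast_nonneg _)
    have hsub : {F | F ∈ Forms n 4 H ∧ Smooth F ∧ LocallySoluble F ∧
        ∀ (L : Type) [Field L] [CharZero L],
          Irreducible (equation L F) ∧ IsUnirational L F ∧ IsDense L F} ⊆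
        {F | F ∈ Forms n 4 H ∧ Smooth F ∧ LocallySoluble F} :=
      fun F hF => ⟨hF.1, hF.2.1, hF.2.2.1⟩
    exact (Nat.cast_le (α := ℝ)).mpr
      (Set.ncard_le_ncard hsub ((hfin H).subset (fun F hF => hF.1)))

end Pool.Agent.Results.MP_b62148_ag.QuarticDoubleCoversUnirational
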