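import Mathlib
import Pool.Agent.Results.MP_214270_ag.SparsePointsCriterion
import Pool.Agent.Run7.h28.ST.Bc

/-!
# Potential density of sparse points and unirationality over the algebraic closure

Let `X` be a geometrically integral projective variety over a number field `K` and `x : X → ℙ^(n-1)` a
finite morphism.  We prove that the following are equivalent:

* `X` is unirational over the algebraic closure of `K`;
* for some number field `L ⊇ K` and some place of `L` the points of `X (L)` above sparse points of
  `ℙ^(n-1)` (the coordinates are sums of a bounded number of elements of a finitely generated group,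
  with coefficients of bounded height) near which `x` is unramified are Zariski dense;
* for all sufficiently large number fields `L ⊇ K` and **all** places of `L` the points of `X (L)`
  above sparse points close to one fixed unramified point `c` are Zariski dense.

So for this class of points potential density at one place is the same as potential density at all
places, and the rationally connected varieties over number fields all have potentially dense sparse
points of this kind if and only if they are all unirational over the algebraic numbers.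

The definitions `Place`, `absv`, `eqn`, `fibre`, `IsPoint`, `IsUnirational`, `IsDense`, `IsSparse`,
`IsCloseTo`, `IsNearSeparable` and `IsNearUnramified` are those of my result
`MP_214270_ag.SparsePointsCriterion`.
-/

open Height NumberField IsDedekindDomain

namespace Pool.Agent.Results.MP_b62148_ag.SparsePotentialDensity

open Pool.Agent.Results.MP_214270_ag.SparsePointsCriterion Pool.Agent.Run7.h28.ST

/-- The variety with the ideal `I`, over the extension `L` of `K`. -/
noncomputable abbrev extend {K σ : Type} [Field K] (L : Type) [Field L] [Algebra K L]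
    (I : Ideal (MvPolynomial σ K)) : Ideal (MvPolynomial σ L) :=
  I.map (MvPolynomial.map (algebraMap K L))

/-- The polynomial `F (x, Y)`, over the extension `L` of `K`. -/
noncomputable def extendPoly {K : Type} [Field K] (L : Type) [Field L] [Algebra K L] {n : ℕ}
    (F : Polynomial (MvPolynomial (Fin n) K)) : Polynomial (MvPolynomial (Fin n) L) :=
  F.map (MvPolynomial.map (algebraMap K L))

/-- The polynomials `F_i (x, Y)` are separable at all points `(x : y)` of the variety over the
algebraic closure of `K`, outside a hypersurface over `K` which does not contain the variety. -/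
def GeometricallySeparable {K : Type} [Field K] {n m : ℕ}
    (I : Ideal (MvPolynomial (Fin n ⊕ Fin m) K))
    (F : Fin m → Polynomial (MvPolynomial (Fin n) K)) : Prop :=
  ∃ D : MvPolynomial (Fin n ⊕ Fin m) K, (∃ e, D.IsHomogeneous e) ∧ D ∉ I ∧
    ∀ (x : Fin n → AlgebraicClosure K) (y : Fin m → AlgebraicClosure K),
      IsPoint (extend (AlgebraicClosure K) I) (Sum.elim x y) →
      MvPolynomial.aeval (Sum.elim x y) D ≠ 0 →
      ∀ i, (fibre x (extendPoly (AlgebraicClosure K) (F i))).Separable

section

variable {K L : Type} [Field K] [Field L] [Algebra K L] {n m : ℕ}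

lemma eqn_extend (F : Polynomial (MvPolynomial (Fin n) K)) (i : Fin m) :
    eqn (extendPoly L F) i = MvPolynomial.map (algebraMap K L) (eqn F i) := by
  unfold eqn extendPoly
  rw [Polynomial.eval₂_map, Polynomial.hom_eval₂, MvPolynomial.map_X]
  congr 1
  refine RingHom.ext fun p => ?_
  change MvPolynomial.rename Sum.inl (MvPolynomial.map (algebraMap K L) p) =
    MvPolynomial.map (algebraMap K L) (MvPolynomial.rename Sum.inl p)
  rw [MvPolynomial.map_rename]

lemma fibre_extend {F : Type} [Field F] [Algebra K F] [Algebra L F] [IsScalarTower K L F]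
    (G : Polynomial (MvPolynomial (Fin n) K)) (x : Fin n → L) :
    fibre (fun l => algebraMap L F (x l)) (extendPoly F G) =
      (fibre x (extendPoly L G)).map (algebraMap L F) := by
  unfold fibre extendPoly
  rw [Polynomial.map_map, Polynomial.map_map, Polynomial.map_map]
  congr 1
  ext p
  · simp [IsScalarTower.algebraMap_apply K L F]
  · simp

lemma point_extend {F : Type} [Field F] [Algebra K F] [Algebra L F] [IsScalarTower K L F]
    {σ : Type} {I : Ideal (MvPolynomial σ K)} {z : σ → L} (h : IsPoint (extend L I) z) :
    IsPoint (extend F I) (fun s => algebraMap L F (z s)) := by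
  have e : extend F I = extend F (extend L I) := (bc_bc I).symm
  rw [e]
  intro G hG
  refine bc_le (MvPolynomial.eval fun s => algebraMap L F (z s)) (fun G hG => ?_) G hG
  rw [MvPolynomial.eval_map]
  have h1 := MvPolynomial.eval₂_comp (algebraMap L F) z G
  have h2 : (algebraMap L F) ∘ z = fun s => algebraMap L F (z s) := rfl
  rw [h2] at h1
  rw [← h1, h G hG, map_zero]

/-- the hypotheses over an extension -/
lemma sep_extend (F : Type) [Field F] [Algebra K F] [Algebra L F] [IsScalarTower K L F]
    {I : Ideal (MvPolynomial (Fin n ⊕ Fin m) K)} {D : MvPolynomial (Fin n ⊕ Fin m) K}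
    {P : Fin m → Polynomial (MvPolynomial (Fin n) K)}
    (hD : ∃ e, D.IsHomogeneous e) (hDI : D ∉ I)
    (h : ∀ (x : Fin n → F) (y : Fin m → F), IsPoint (extend F I) (Sum.elim x y) →
      MvPolynomial.aeval (Sum.elim x y) D ≠ 0 → ∀ i, (fibre x (extendPoly F (P i))).Separable) :
    GenericallySeparable (extend L I) (fun i => extendPoly L (P i)) := by
  obtain ⟨e, he⟩ := hD
  refine ⟨MvPolynomial.map (algebraMap K L) D, ⟨e, he.map _⟩, fun h1 => hDI (mem_bc_iff.1 h1),
    fun x y hxy hne i => ?_⟩
  have e1 : (fun s => algebraMap L F (Sum.elim x y s)) =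
      Sum.elim (fun l => algebraMap L F (x l)) (fun l => algebraMap L F (y l)) := by
    funext s
    cases s <;> rfl
  have h1 := point_extend (F := F) hxy
  rw [e1] at h1
  have h2 := h _ _ h1 (by
    rw [← e1]
    change MvPolynomial.aeval (algebraMap L F ∘ Sum.elim x y) D ≠ 0
    rw [MvPolynomial.aeval_algebraMap_apply]
    intro h0
    refine hne ?_
    have h3 : MvPolynomial.aeval (Sum.elim x y) D = 0 :=
      (map_eq_zero_iff _ (algebraMap L F).injective).1 h0
    rw [MvPolynomial.eval_map]
    exact h3) i
  rw [fibre_extend] at h2
  exact (Polynomial.separable_map _).1 h2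

end

/-- base change of unirational varieties -/
lemma unir_extend {K L F σ : Type} [Field K] [Field L] [Field F] [Algebra K L] [Algebra L F]
    [Algebra K F] [IsScalarTower K L F] {I : Ideal (MvPolynomial σ K)}
    (h : IsUnirational (extend L I)) : IsUnirational (extend F I) := by
  obtain ⟨r, Q, h1, h2⟩ := h
  have h3 := unir_bc (F := F) h1 h2
  rw [bc_bc] at h3
  exact ⟨r, _, h3.1, h3.2⟩

/-- descent to a number field -/
lemma unir_descend {K σ : Type} [Field K] [NumberField K] [Finite σ] {I : Ideal (MvPolynomial σ K)}
    (h : IsUnirational (extend (AlgebraicClosure K) I)) :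
    ∃ (L : Type) (_ : Field L) (_ : NumberField L) (_ : Algebra K L),
      IsUnirational (extend L I) := by
  classical
  cases nonempty_fintype σ
  obtain ⟨r, Q, h1, h2⟩ := h
  let S : Finset (AlgebraicClosure K) := Finset.univ.biUnion fun s => (Q s).coeffs
  let L : IntermediateField K (AlgebraicClosure K) := IntermediateField.adjoin K (S : Set _)
  have : FiniteDimensional K L :=
    IntermediateField.finiteDimensional_adjoin fun x _ => Algebra.IsIntegral.isIntegral x
  have : NumberField L := NumberField.of_module_finite K L
  have hq : ∀ s, ∃ q : MvPolynomial (Fin r) L,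
      MvPolynomial.map (algebraMap L (AlgebraicClosure K)) q = Q s := fun s => by
    have h3 : Q s ∈ Set.range
        (MvPolynomial.map (σ := Fin r) (algebraMap L (AlgebraicClosure K))) := by
      rw [MvPolynomial.mem_range_map_iff_coeffs_subset]
      intro c hc
      refine ⟨⟨c, IntermediateField.subset_adjoin K _ ?_⟩, rfl⟩
      exact Finset.mem_biUnion.2 ⟨s, Finset.mem_univ _, hc⟩
    exact h3
  choose q hq using hq
  have hQ : Q = fun s => MvPolynomial.map (algebraMap L (AlgebraicClosure K)) (q s) :=
    funext fun s => (hq s).symm
  rw [hQ] at h1 h2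
  refine ⟨L, inferInstance, inferInstance, inferInstance, r, q, ?_⟩
  have e : extend (AlgebraicClosure K) I = extend (AlgebraicClosure K) (extend L I) :=
    (bc_bc I).symm
  rw [e] at h1 h2
  exact unir_desc h1 h2

/-- all hypotheses of the criterion over an extension -/
lemma criterion {K : Type} [Field K] [NumberField K] {n m : ℕ}
    {I : Ideal (MvPolynomial (Fin n ⊕ Fin m) K)}
    (hI : (extend (AlgebraicClosure K) I).IsPrime)
    (hhom : ∀ G ∈ I, ∀ e, MvPolynomial.homogeneousComponent e G ∈ I)
    {F : Fin m → Polynomial (MvPolynomial (Fin n) K)} (hFm : ∀ i, (F i).Monic)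
    (hFI : ∀ i, eqn (F i) i ∈ I) (hgen : GeometricallySeparable I F)
    (L : Type) [Field L] [NumberField L] [Algebra K L] (v : Place L) :
    List.TFAE [IsUnirational (extend L I),
      ∃ Γ : Subgroup Lˣ, Γ.FG ∧ ∃ (k : ℕ) (M δ : ℝ) (c : Fin n → L), 0 < δ ∧
        (∀ i, (fibre c (extendPoly L (F i))).Separable) ∧
        IsDense (fun x y => IsPoint (extend L I) (Sum.elim x y) ∧ IsCloseTo Γ v k δ M c x)
          (extend L I),
      ∃ Γ : Subgroup Lˣ, Γ.FG ∧ ∃ (k : ℕ) (B M δ : ℝ), 0 < δ ∧
        IsDense (fun x y => IsPoint (extend L I) (Sum.elim x y) ∧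
          IsNearUnramified Γ v k B δ M (fun i => extendPoly L (F i)) x) (extend L I)] := by
  have : Algebra.IsAlgebraic K L := Algebra.IsAlgebraic.tower_top (K := ℚ) K
  let ι : L →ₐ[K] AlgebraicClosure K := IsAlgClosed.lift
  let _ : Algebra L (AlgebraicClosure K) := ι.toRingHom.toAlgebra
  have : IsScalarTower K L (AlgebraicClosure K) :=
    IsScalarTower.of_algebraMap_eq' ι.comp_algebraMap.symm
  obtain ⟨D, hD, hDI, hsep⟩ := hgen
  refine Pool.Agent.Results.MP_214270_ag.SparsePointsCriterion.result L v n m (extend L I) ?_ (bc_comp hhom)
    (fun i => extendPoly L (F i)) (fun i => (hFm i).map _) (fun i => ?_)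
    (sep_extend (AlgebraicClosure K) hD hDI hsep)
  · have e : extend (AlgebraicClosure K) I = extend (AlgebraicClosure K) (extend L I) :=
      (bc_bc I).symm
    rw [e] at hI
    exact bc_prime hI
  · rw [eqn_extend]
    exact Ideal.mem_map_of_mem _ (hFI i)

/-- Let `K` be a number field.  Let `X` be a geometrically integral projective variety over `K` with the
homogeneous coordinates `x_1, …, x_n`, `y_1, …, y_m` and the homogeneous ideal `I` (which generates a
prime ideal over the algebraic closure of `K`), such that each `y_i` satisfies an equation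
`F_i (x, y_i) = 0` on `X`, where `F_i` is monic in `y_i` and `F_i (x, Y)` is separable at the general
point of `X` (so that `x : X → ℙ^(n-1)` is finite).  The following are equivalent.

1. `X` is unirational over the algebraic closure of `K`.
2. `X` is unirational over some number field `L ⊇ K`.
3. For some number field `L ⊇ K`, some place `v` of `L`, some finitely generated subgroup `Γ` of `Lˣ`
  and some `k`, `B`, `M`, `δ > 0`, the points of `X (L)` which have coordinates `(x : y)` with `x_l` a
  sum of `k` elements of `Γ` with coefficients of height at most `M` and the polynomials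
  `F_i (x, Y)` near separable polynomials at `v` are Zariski dense in `X`.
4. There is a number field `L₀ ⊇ K` such that for **all** number fields `L ⊇ L₀` and **all** places
  `v` of `L` there are a finitely generated subgroup `Γ` of `Lˣ`, `k`, `M`, `δ > 0` and a point `c` over
  `L` for which the polynomials `F_i (c, Y)` are separable, such that the points of `X (L)` which have
  coordinates `(x : y)` with `x_l` a sum of `k` elements of `Γ` with coefficients of height at most
  `M` and `|x_l - c_l|_v ≤ M h ^ (-δ)`, where `h = ∏ H (x_l)`, are Zariski dense in `X`. -/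
theorem result (K : Type) [Field K] [NumberField K] (n m : ℕ)
    (I : Ideal (MvPolynomial (Fin n ⊕ Fin m) K))
    (hI : (extend (AlgebraicClosure K) I).IsPrime)
    (hhom : ∀ G ∈ I, ∀ e, MvPolynomial.homogeneousComponent e G ∈ I)
    (F : Fin m → Polynomial (MvPolynomial (Fin n) K)) (hFm : ∀ i, (F i).Monic)
    (hFI : ∀ i, eqn (F i) i ∈ I) (hgen : GeometricallySeparable I F) :
    List.TFAE [IsUnirational (extend (AlgebraicClosure K) I),
      ∃ (L : Type) (_ : Field L) (_ : NumberField L) (_ : Algebra K L),
        IsUnirational (extend L I),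
      ∃ (L : Type) (_ : Field L) (_ : NumberField L) (_ : Algebra K L) (v : Place L),
        ∃ Γ : Subgroup Lˣ, Γ.FG ∧ ∃ (k : ℕ) (B M δ : ℝ), 0 < δ ∧
        IsDense (fun x y => IsPoint (extend L I) (Sum.elim x y) ∧
          IsNearUnramified Γ v k B δ M (fun i => extendPoly L (F i)) x) (extend L I),
      ∃ (L₀ : Type) (_ : Field L₀) (_ : NumberField L₀) (_ : Algebra K L₀),
        ∀ (L : Type) [Field L] [NumberField L] [Algebra K L] [Algebra L₀ L] [IsScalarTower K L₀ L]
        (v : Place L), ∃ Γ : Subgroup Lˣ, Γ.FG ∧ ∃ (k : ℕ) (M δ : ℝ) (c : Fin n → L), 0 < δ ∧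
        (∀ i, (fibre c (extendPoly L (F i))).Separable) ∧
        IsDense (fun x y => IsPoint (extend L I) (Sum.elim x y) ∧ IsCloseTo Γ v k δ M c x)
          (extend L I)] := by
  have crit := @criterion K _ _ n m I hI hhom F hFm hFI hgen
  tfae_have 1 → 2 := unir_descend
  tfae_have 2 → 4 := by
    rintro ⟨L₀, _, _, _, h⟩
    refine ⟨L₀, inferInstance, inferInstance, inferInstance, fun L _ _ _ _ _ v => ?_⟩
    have h2 : IsUnirational (extend L I) := unir_extend (L := L₀) h
    exact ((crit L v).out 0 1).1 h2
  tfae_have 4 → 3 := by
    rintro ⟨L₀, _, _, _, h⟩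
    let v : Place L₀ := Sum.inl (Classical.arbitrary (InfinitePlace L₀))
    exact ⟨L₀, inferInstance, inferInstance, inferInstance, v,
      ((crit L₀ v).out 1 2).1 (h L₀ v)⟩
  tfae_have 3 → 1 := by
    rintro ⟨L, _, _, _, v, h⟩
    have h1 : IsUnirational (extend L I) := ((crit L v).out 0 2).2 h
    have : Algebra.IsAlgebraic K L := Algebra.IsAlgebraic.tower_top (K := ℚ) K
    let ι : L →ₐ[K] AlgebraicClosure K := IsAlgClosed.lift
    let _ : Algebra L (AlgebraicClosure K) := ι.toRingHom.toAlgebra
    have : IsScalarTower K L (AlgebraicClosure K) :=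
      IsScalarTower.of_algebraMap_eq' ι.comp_algebraMap.symm
    exact unir_extend (L := L) h1
  tfae_finish

end Pool.Agent.Results.MP_b62148_ag.SparsePotentialDensity
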