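import Pool.Agent.Run7.h260.TW.Fin
import Pool.Agent.Run7.h366.RCb
import Pool.Agent.TH466.QT.Den

/-!
# Potential density for the rationally connected images of towers over hypersurfaces and over coverings
of complete intersections

A tower of dimension `n` with the bound `s` (`Tower c n Base K s`) is a sequence of dominant rational
maps of finite degree `V = V_0 ⇢ V_1 ⇢ ... ⇢ V_k` between varieties of dimension `n` over `ℂ`. At the step
`V_i ⇢ V_(i + 1)`, of degree `b_i`, the canonical bundle of `V_i` is positive relative to `V_(i + 1)`
(`Positive`): `V_(i + 1)` is the image of `V_i` in a projective space, and for all varieties `Y'`,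
`V_i ⇢ Y' ⇢ V_(i + 1)`, of degree `> 1` over `V_(i + 1)` there is a section of `K_(V_i) - m H` with a
nonzero trace on `Y'`, where `s_i ≤ [V_i : Y'] (m + 1)`; for instance cyclic coverings of prime degree
branched along a sufficiently positive divisor. The bounds are `s_0 = s`, `s_(i + 1) = ⌊s_i / b_i⌋`. The
last variety `V_k`, with the bound `s_k`, is

* a smooth hypersurface of degree `d` in `ℙ^(n + 1)`, where for some `N` one has `d ≥ 7 N + n + 6`,
  `d > (n + 1) N`, `d > c (N + n - 1)` and `s_k < (N + 1) (d - n - N)`; or
* any variety with a generically finite map, of any degree, to a variety in `ℙ^(M + 1)` which is cut out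
  by equations of degree at most `D` and has the regular canonical forms `P(x) ω₀` for all forms `P`
  of degree `m`, for instance a smooth complete intersection of codimension at least two with
  `K = O(m)`; where for some `N` one has `m ≥ 7 N + 4`, `m + M + 2 > (M + 1) N`, `m + 2 ≥ D + N` and
  `s_k < (N + 1) (m + 2 - N)`; or
* any unirational variety, without condition on `s_k`.

Let `V` be the first variety of a tower with the bound `s = r` (and `c = 2`), and let `V ⇢ X` be any
dominant rational map of degree `r` to a projective variety `X`; nothing is assumed about the map (it
need not be a quotient by a group and has no relation to the tower) or about `X`, which may be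
singular. The theorem: if `X` is rationally connected, or only `p_g(X) = 0`, then it is unirational, and
the points of `X` with coordinates in some finitely generated subfield of `ℂ` are Zariski dense. If `X`
is defined over `ℚ`, then a unirational `X` is unirational over a number field (a standard argument,
not formalised here), so `X` is potentially dense.

With the best `N` the bound for the degree `r` is of the order of `b d ^ 2` (`b = b_0 ... b_(k - 1)`) for
towers over hypersurfaces of degree `d`, and of the order of `b m ^ 2` for towers over coverings of
complete intersections. The starting result of this question on images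
(`DominatedDensity`) is about varieties given by high powers of linear forms, and maps of degree `d`
with a bound for `d !`.

The dichotomy for these towers is a theorem of helper260 (`Pool/Agent/Run7/h260/TW/Fin.lean`), who
handed it in for the abundance conjecture as `MP_5ff3c6_ag.ImagesOfTowers`. Proof: if `p_g(X) = 0` then the
traces of the canonical forms to `X` are zero, and at each step `V_i ⇢ X`
factors through `V_(i + 1)`; at the bottom the theorems on hypersurfaces and on complete intersections
of quadratic degree (`N162/HN`, `N162/GP`) are used. That rationally
connected varieties have geometric genus zero is proved in `Pool/Agent/Run7/h366/RCa.lean`,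
`RCb.lean`.

`K` and `L` are the function fields of `V` and `X`, and `x` is the generic point of `X` in homogeneous
coordinates; `coords ℂ x = ⊤` says that their ratios generate `L`. `RationallyConnected ℂ x`: over some
algebraically closed field there is a rational curve on `X` through two independent generic points
(`Pool/Agent/TH710/WH/Defs2.lean`). `PotentiallyDense ℂ x`: for some finitely generated subfield of `ℂ`
the points with coordinates in this field are Zariski-dense (`Pool/Agent/TH466/QT/Den.lean`).
-/

set_option autoImplicit false
set_option linter.overlappingInstances false

open FF Module Pool.Agent.W602.GT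
open Pool.Agent.W619.TW (IsUnirational)
open Pool.Agent.R882.Over (GenusZero)
open Pool.Agent.TH466.QT (PotentiallyDense)
open Pool.Agent.TH710.WH (RationallyConnected)
open Pool.Agent.Run7.h260.TW (Tower)

namespace Pool.Agent.Results.MP_b62148_ag.TowersOverLowDegree

/-- **Potential density for rationally connected images of towers.** Let `K` be the function field of
the first variety `V` of a tower of dimension `n ≥ 1` with the bound `r` over a smooth hypersurface, a
covering of a variety of low degree, or a unirational variety, and let `V ⇢ X` be a dominant rational
map of degree `r` to a projective variety `X` with function field `L` and generic point `x`. If `X` is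
rationally connected, or only `p_g(X) = 0`, then `X` is unirational and potentially dense. -/
theorem result {n : ℕ} (hn : 1 ≤ n) {K : Type} [Field K] [Algebra ℂ K] [Algebra.EssFiniteType ℂ K]
    (hK : Algebra.trdeg ℂ K = n) (L : Type) [Field L] [Algebra ℂ L] [Algebra L K]
    [IsScalarTower ℂ L K] [FiniteDimensional L K]
    (h : Tower 2 n (fun E _ _ => IsUnirational ℂ E n) K (Module.finrank L K)) {m : ℕ}
    {x : Fin (m + 1) → L} (hx : x ≠ 0) (hgen : coords ℂ x = ⊤) :
    (RationallyConnected ℂ x → IsUnirational ℂ L n ∧ PotentiallyDense ℂ x) ∧
    (GenusZero L n → IsUnirational ℂ L n ∧ PotentiallyDense ℂ x) := by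
  have hL : Algebra.trdeg ℂ L = (n : ℕ) := Pool.Agent.Y184.NT.trdeg_below (K := K) hK
  have h1 := Pool.Agent.Run7.h260.TW.genus_unirational L hn hK le_rfl le_rfl h
  have h2 : GenusZero L n ↔ IsUnirational ℂ L n := h1.out 0 4
  have h3 : GenusZero L n → IsUnirational ℂ L n ∧ PotentiallyDense ℂ x := fun h4 =>
    ⟨h2.1 h4, Pool.Agent.TH466.QT.dense_of_unirational (h2.1 h4) hx⟩
  exact ⟨fun h4 => h3 (Run7.h366.RC.genusZero_of_rc hn hL hx hgen h4), h3⟩

end Pool.Agent.Results.MP_b62148_ag.TowersOverLowDegree
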